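import Pool.Agent.NH52.LS.Cnt2
import Pool.Agent.NH52.LS.Lsp
import Pool.Agent.NH52.LS.Nrm
import Pool.Agent.NH52.LS.Gen
import Pool.Agent.NH52.LS.Big
import Pool.Agent.NH52.LS.Spl
import Pool.Agent.NH52.LS.Htf
import Pool.Agent.NH52.LS.Arc
import Pool.Agent.NH52.LS.Fin
import Pool.Agent.NH52.LS.Spb
import Pool.Agent.NH52.LS.Idb
import Pool.Agent.NH52.LS.Smn
import Pool.Agent.NH52.LS.Low
import Pool.Agent.NH52.LS.Ids
import Pool.Agent.NH52.LS.Cnt
import Pool.Agent.NH52.LS.Two
import Pool.Agent.NH52.LS.Glu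
import Pool.Agent.R407.WR
import Pool.Agent.Results.MP_f5471b_nt.ResNearlyIntegralJ

/-!
# The strong Lang-Silverman inequality for the Weil restrictions of elliptic curves from the fields generated by the roots
# of random polynomials

Let `K` be any number field, of degree `n` over `ℚ`, and `d ≥ 1`. We consider the polynomials `f = f_0 + f_1 x + … + f_d x ^ d`
with coefficients in the ring of integers of `K`, ordered by the maximum of the absolute values of all conjugates of all
coefficients (`Box K d Y`: at most `Y`; there are at least `C⁻¹ Y ^ (n (d + 1))` of them). If `j` is a root of `f` such that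
`L = K(j)` is of degree `d` over `K` (`IsRoot f j`), let `E` be ANY elliptic curve over `L` with invariant `j` (all twists),
and `A = Res_{L/K} (E ^ r)`, an abelian variety over `K` of dimension `r d`.

We prove: outside a set `E d` of polynomials of which the proportion is at most `C Y ^ (-ν)` the alternative of the problem
holds for all these `A`, and for all products of such `A` (any number of factors, with different degrees `d_i`, fields `L_i`,
exponents `r_i`), with all product polarizations given by positive definite matrices `X_i`: for each `P ∈ A(K)` either some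
component `P_i` is zero, so that `P` lies in the product of the other factors (order one modulo a proper abelian subvariety
of not larger degree; for one factor: `P = 0`), or the canonical height of `P` is at least `(c / dim A) max (h_F(A/K), 1)`
with the relative Faltings height `h_F(A/K)` and an ABSOLUTE constant `c > 0`, independent of `K`, of the dimension and of the
polarization. (If no `P_i` is zero then `End(A) P` is Zariski dense in `A`, because no `P_i` is a torsion point.)

In particular for every `g` the strong inequality holds for one hundred percent of the abelian varieties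
`Res_{K(j)/K} E`, `j` of degree `g` over `K`; here the field `K(j)` varies with `j`. `faltings`, `jInv` and `IsPeriod` are
the definitions of the starting file `ResNearlyIntegralJ`, which treats the `j` which are nearly `S`-integral.
-/

set_option autoImplicit false
set_option linter.unusedSectionVars false

namespace Pool.Agent.Results.MP_f5471b_nt.RandomWeilRestrictions

open NumberField IsDedekindDomain Filter Pool.Agent.TH942 Pool.Agent.TH910.LS
open Pool.Agent.NH52.LS (Box IsRoot)
open ResNearlyIntegralJ (IsPeriod faltings jInv faltings_eq n_pos)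

open Classical in
/-- one Weil restriction -/
theorem one : ∃ c₀ : ℝ, 0 < c₀ ∧ ∀ (L : Type) [Field L] [NumberField L] (c : ℝ) (K : Type) [Field K] [NumberField K]
    [Algebra K L] (a b : L) (τ : InfinitePlace L → UpperHalfPlane), 0 ≤ c → 4 * a ^ 3 + 27 * b ^ 2 ≠ 0 →
    Pool.Agent.Y733.LS.LSP c (jInv a b) → IntermediateField.adjoin K {jInv a b} = ⊤ → IsPeriod (jInv a b) τ →
    ∀ (r : ℕ) (X : Matrix (Fin r) (Fin r) ℤ), (X.map (Int.cast : ℤ → ℝ)).PosDef →
    ∀ P : Fin r → SPt a b, P ≠ 0 →
      c₀ * c / ((r * Module.finrank K L : ℕ) : ℝ) * max (faltings K a b τ r) 1 ≤ chatM X P / Module.finrank ℚ K := by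
  obtain ⟨c₀, hc₀, h⟩ := Pool.Agent.R407.wr_core
  refine ⟨c₀, hc₀, ?_⟩
  intro L _ _ c K _ _ _ a b τ hc hD hj hK hτ r X hX P hP
  obtain ⟨h1, h2⟩ := h L c (jInv a b) hc hj K hK a b τ hD rfl hτ r X hX P hP
  have hfd : FiniteDimensional K L := Module.Finite.of_restrictScalars_finite ℚ K L
  have hn := n_pos K
  have hG1 : (1 : ℝ) ≤ Module.finrank K L := by
    exact_mod_cast (Module.finrank_pos : 0 < Module.finrank K L)
  have hr1 : 1 ≤ r := by
    rcases Nat.eq_zero_or_pos r with rfl | h0
    · exact absurd (Subsingleton.elim P 0) hP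
    · exact h0
  have hr : (1 : ℝ) ≤ r := by exact_mod_cast hr1
  have hmul : (Module.finrank ℚ L : ℝ) = Module.finrank ℚ K * Module.finrank K L := by
    rw [← Module.finrank_mul_finrank ℚ K L]
    push_cast
    rfl
  have hf := faltings_eq K a b τ r
  have hcc : 0 ≤ c₀ * c := mul_nonneg hc₀.le hc
  generalize c₀ * c = e at *
  push_cast
  set G : ℝ := (Module.finrank K L : ℝ) with hG
  set D : ℝ := (Module.finrank ℚ K : ℝ) with hd
  set Y : ℝ := Pool.Agent.Y733.FF.discSum (sw a b) +
      ∑ w : InfinitePlace L, (w.mult : ℝ) * Pool.Agent.TH876.FH.arch (τ w) +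
      6 * (Real.log |(discr L : ℝ)| - G * Real.log |(discr K : ℝ)|) with hY
  have hG0 : 0 < G := by linarith
  have hr0 : (0 : ℝ) < r := by linarith
  rw [le_div_iff₀ hn]
  have h3 : 0 ≤ chatM X P := le_trans (mul_nonneg hcc (by positivity)) h2
  rcases le_total (faltings K a b τ r) 1 with h4 | h4
  · rw [max_eq_right h4, mul_one]
    have h5 : e / (r * G) * D ≤ e * D := by
      apply mul_le_mul_of_nonneg_right _ hn.le
      exact div_le_self hcc (by nlinarith)
    have h6 : e * D ≤ e * Module.finrank ℚ L := by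
      apply mul_le_mul_of_nonneg_left _ hcc
      rw [hmul]
      exact le_mul_of_one_le_right hn.le hG1
    linarith
  · rw [max_eq_left h4]
    have h5 : e / (r * G) * faltings K a b τ r * D = e * Y / (12 * G) := by
      have h6 : faltings K a b τ r * D = r * Y / 12 := by
        rw [eq_div_iff (by norm_num)]
        linarith
      rw [mul_assoc, h6]
      field_simp
    rw [h5, div_le_iff₀ (by positivity)]
    have h7 : 0 ≤ chatM X P * G := mul_nonneg h3 hG0.le
    nlinarith

open Classical in
/-- There is an absolute constant `c > 0` such that for every number field `K` there are sets `E d` of polynomials of degree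
at most `d` over the integers of `K` with the following properties. For `d ≥ 1` the proportion of `E d` in the box of size
`Y` is at most `C Y ^ (-ν)`, and the box contains at least `C⁻¹ Y ^ (n (d + 1))` polynomials. For any polynomials `f_i` outside
these sets, fields `L_i = K(j_i)` of degree `d_i` over `K` with `f_i(j_i) = 0` and elliptic curves
`E_i : y² = x³ + a_i x + b_i` over `L_i` of invariant `j_i`: `chat` is the limit of `sht (2 ^ k Q) / 4 ^ k`, and for all
`r_i`, all polarizations `X_i` and all `P ∈ ∏ E_i(L_i) ^ (r_i)`, the group of the rational points over `K` of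
`A = ∏ Res_{L_i/K} (E_i ^ (r_i))`, some `P_i` is zero or the canonical height of `P` is at least
`(c / dim A) max (h_F(A/K), 1)`. -/
theorem result : ∃ c : ℝ, 0 < c ∧ ∀ (K : Type) [Field K] [NumberField K],
    ∃ E : ∀ d : ℕ, Set (Fin (d + 1) → 𝓞 K),
    (∀ d : ℕ, 1 ≤ d → ∃ ν C : ℝ, 0 < ν ∧ 0 < C ∧ ∀ Y : ℝ, 1 ≤ Y → (Box K d Y).Finite ∧
      Y ^ (Module.finrank ℚ K * (d + 1)) ≤ C * (Box K d Y).ncard ∧
      ((E d ∩ Box K d Y).ncard : ℝ) ≤ C * Y ^ (-ν) * (Box K d Y).ncard) ∧
    ∀ (s : ℕ), 0 < s → ∀ (d : Fin s → ℕ) (f : ∀ i, Fin (d i + 1) → 𝓞 K) (L : Fin s → Type)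
      [∀ i, Field (L i)] [∀ i, NumberField (L i)] [∀ i, Algebra K (L i)] (a b : ∀ i, L i)
      (τ : ∀ i, InfinitePlace (L i) → UpperHalfPlane),
      (∀ i, f i ∉ E (d i)) → (∀ i, 4 * a i ^ 3 + 27 * b i ^ 2 ≠ 0) →
      (∀ i, IsRoot (f i) (jInv (a i) (b i))) → (∀ i, IsPeriod (jInv (a i) (b i)) (τ i)) →
      (∀ i, ∀ Q : SPt (a i) (b i), Tendsto (fun k : ℕ => sht ((2 ^ k : ℕ) • Q) / 4 ^ k) atTop (nhds (chat Q))) ∧
      ∀ (r : Fin s → ℕ), (∀ i, 1 ≤ r i) → ∀ (X : ∀ i, Matrix (Fin (r i)) (Fin (r i)) ℤ),
      (∀ i, ((X i).map (Int.cast : ℤ → ℝ)).PosDef) → ∀ P : ∀ i, Fin (r i) → SPt (a i) (b i),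
        (∃ i, P i = 0) ∨
        c / (∑ i, r i * d i : ℕ) * max (∑ i, faltings K (a i) (b i) (τ i) (r i)) 1 ≤
          (∑ i, chatM (X i) (P i)) / Module.finrank ℚ K := by
  have hN := Pool.Agent.NH52.LS.t_NRM
  have hG := Pool.Agent.NH52.LS.t_GEN hN
  have hB := Pool.Agent.NH52.LS.t_BIG hN
  have hF := Pool.Agent.NH52.LS.t_FIN hN hG hB
  have hS := Pool.Agent.NH52.LS.t_SPB hN (Pool.Agent.NH52.LS.t_SPL hN hB)
  have hC := Pool.Agent.NH52.LS.t_CNT Pool.Agent.NH52.LS.t_IDB Pool.Agent.NH52.LS.t_SMN Pool.Agent.NH52.LS.t_LOW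
    Pool.Agent.NH52.LS.t_IDS
  obtain ⟨c, hc, h⟩ := Pool.Agent.NH52.LS.count Pool.Agent.NH52.LS.t_HTF (Pool.Agent.NH52.LS.t_ARC hN) hF hS
    Pool.Agent.NH52.LS.t_GLU (Pool.Agent.NH52.LS.t_LSP Pool.Agent.NH52.LS.t_TWO) hC
  obtain ⟨c₀, hc₀, h1⟩ := one
  refine ⟨c₀ * c, by positivity, fun K _ _ => ⟨Pool.Agent.NH52.LS.ExcF c K, h K, ?_⟩⟩
  intro s hs d f L _ _ _ a b τ hf hD hr hτ
  refine ⟨fun i => (chat_spec (hD i)).1, ?_⟩
  intro r hr1 X hX P
  by_cases h0 : ∃ i, P i = 0
  · exact Or.inl h0
  right
  push Not at h0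
  have hL : ∀ i, Pool.Agent.Y733.LS.LSP c (jInv (a i) (b i)) := fun i => by
    by_contra hcon
    exact hf i ⟨L i, _, _, _, jInv (a i) (b i), hr i, hcon⟩
  have h2 : ∀ i, c₀ * c / ((r i * d i : ℕ) : ℝ) * max (faltings K (a i) (b i) (τ i) (r i)) 1 ≤
      chatM (X i) (P i) / Module.finrank ℚ K := fun i => by
    have h3 := h1 (L i) c K (a i) (b i) (τ i) hc.le (hD i) (hL i) (hr i).2.2.1 (hτ i) (r i) (X i) (hX i) (P i) (h0 i)
    rwa [(hr i).2.2.2] at h3
  rw [Finset.sum_div]
  have hd : ∀ i, 1 ≤ d i := fun i => by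
    have hfd : FiniteDimensional K (L i) := Module.Finite.of_restrictScalars_finite ℚ K (L i)
    have := (hr i).2.2.2
    rw [← this]
    exact Module.finrank_pos
  exact Pool.Agent.R407.sum_comb hs (by positivity) (fun i => r i * d i)
    (fun i => Nat.mul_pos (hr1 i) (hd i)) _ _ h2

end Pool.Agent.Results.MP_f5471b_nt.RandomWeilRestrictions
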