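import Pool.Agent.NH22.DG.All

/-!
# The strong inequality of Lang and Silverman for nearly all members of every sparse family given by changes of digits

Let `N 0`, `N 1` be arbitrary integers, for example with very special digits. We change, in an arbitrary base, the digits of
`N l` at `r l` places and consider all the curves `E : y ^ 2 = x ^ 3 + m 1 * x + m 0` which arise by the different choices of the
places (the new digits are prescribed, different from the old ones). If the number of the changed digits is a positive
proportion of all digits, however small, then for all but an exponentially small proportion of these curves the strong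
alternative of Lang and Silverman holds with uniform constants, for all forms over `ℚ` of the powers of `E`, all polarizations
and all points. Such families may have as few as `H ^ ε` members up to height `H`, for any `ε > 0`.

A finite Galois extension `L` of `ℚ` and a faithful representation `ρ` of its group by integral matrices of size `g` define an
abelian variety `A` over `ℚ`, the form of `E ^ g` with `A(ℚ) = {P ∈ E(L) ^ g | ρ(σ) σ(P) = P for all σ}` (`FixedPt ρ P`); for
`g = 1` these are `E` and its quadratic twists. A symmetric positive definite integral matrix `M` with `ρ(σ)ᵀ M ρ(σ) = M`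
(`Polar ρ M`) is a polarization of `A` over `ℚ`, of degree `g! * det M`; the canonical height is `chatM M P / [L : ℚ]`.

`SubvarLe c ρ M P` is the alternative (a): there are `k < g` and an integral matrix `β` with `k` columns, which has an integral
left inverse and whose columns span a subgroup stable under `ρ`, so that `B = β(E ^ k)` is an abelian subvariety of `A` over `ℚ`,
of degree `k! * det (βᵀ M β) ≤ c * (g! * det M)`, and `n P = β Q` for some `1 ≤ n ≤ c` and `Q`.

`Pts L a b` is the group of points over `L` of `y ^ 2 = x ^ 3 + a x + b`, `chat P` the canonical height relative to `L`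
(`ChatLim L a b`: it is the limit of `sht (2 ^ k P) / 4 ^ k`, `sht` the height of the `x`-coordinate), `RamPrimes ℚ T` says that
for each prime `v` in `T` there is `σ ≠ 1` in the inertia group, and `logNorms T` is the sum of `log N v`, `v ∈ T`.
-/

set_option autoImplicit false

namespace Pool.Agent.Results.MP_f5471b_nt.SparseFamilies

open Finset NumberField IsDedekindDomain Pool.Agent.TH910.LS Pool.Agent.Y725.LS

/-- The digit number `i` (counted from the right, beginning with `0`) of `n` in base `b`. -/
def digit (b i n : ℕ) : ℕ := n / b ^ i % b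

/-- The number which arises from the number `N` with at most `K` digits in base `b`, if for every `i ∈ S`
the digit number `i` is replaced by `f i`. -/
def change (b K N : ℕ) (f : ℕ → ℕ) (S : Finset ℕ) : ℕ :=
  ∑ i ∈ range K, (if i ∈ S then f i else digit b i N) * b ^ i

open Classical in
/-- The number of the choices of `r l` of `K l` positions for all `l` for which the vector of the numbers obtained by
changing the digits of the `N l` at the chosen positions (according to `f l`) does not have the property `E`. -/
noncomputable def exceptions {d : ℕ} (b : ℕ) (K r N : Fin d → ℕ) (f : Fin d → ℕ → ℕ) (E : (Fin d → ℕ) → Prop) : ℕ :=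
  ((Fintype.piFinset (fun l => powersetCard (r l) (range (K l)))).filter
    (fun S => ¬ E (fun l => change b (K l) (N l) (f l) (S l)))).card

/-- The strong alternative, with the constants `c₁`, `c₂`, for all forms over `ℚ` of the power `E ^ g` of the elliptic curve
`E : y ^ 2 = x ^ 3 + m 1 * x + m 0`. The lower bound for the canonical height is by
`log (2 + m 0 + m 1) + (∑ v ∈ T, log N v) / [L : ℚ]`, for any set `T` of ramified primes. -/
def StrongAlternative (g : ℕ) (c₁ : ℝ) (c₂ : ℕ) (m : Fin 2 → ℕ) : Prop :=
  4 * m 1 ^ 3 + 27 * m 0 ^ 2 ≠ 0 ∧ ∀ (L : Type) [Field L] [NumberField L] [IsGalois ℚ L] [DecidableEq L],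
    ChatLim L ((m 1 : ℕ) : 𝓞 ℚ) ((m 0 : ℕ) : 𝓞 ℚ) ∧
    ∀ (ρ : (L ≃ₐ[ℚ] L) →* Matrix (Fin g) (Fin g) ℤ) (M : Matrix (Fin g) (Fin g) ℤ)
      (P : Fin g → Pts L ((m 1 : ℕ) : 𝓞 ℚ) ((m 0 : ℕ) : 𝓞 ℚ)) (T : Finset (HeightOneSpectrum (𝓞 L))),
      Faithful ρ → Polar ρ M → FixedPt ρ P → RamPrimes ℚ T →
      SubvarLe c₂ ρ M P ∨ (¬ IsOfFinAddOrder P ∧
        c₁ * (Real.log (2 + m 0 + m 1) + logNorms T / Module.finrank ℚ L) ≤ chatM M P / Module.finrank ℚ L)

/-- Let `b ≥ 2`, `g ≥ 1` and `λ > 0`. There are `c₁, η > 0` and `c₂, r₀` with the following property. Let `r₀ ≤ r l` and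
`2 r l ≤ K l ≤ λ r l'` (`l, l' = 0, 1`), let `0 ≤ N l < b ^ K l` be arbitrary integers and prescribe for every position `j` a digit
`f l j` different from the digit of `N l` in base `b`. Choose `r l` of the `K l` positions and replace the digits of `N l` at these
positions; this gives a number `m l`. For all but at most the proportion `exp (- η r 0)` of the choices the strong alternative
holds, with the constants `c₁`, `c₂`, for all forms of the power `E ^ g` of the elliptic curve `y ^ 2 = x ^ 3 + m 1 * x + m 0`. -/
theorem result (b g : ℕ) (lam : ℝ) (hb : 2 ≤ b) (hg : 0 < g) (hlam : 0 < lam) :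
    ∃ c₁ η : ℝ, 0 < c₁ ∧ 0 < η ∧ ∃ c₂ r₀ : ℕ, ∀ K r N : Fin 2 → ℕ, ∀ f : Fin 2 → ℕ → ℕ,
      (∀ l, 2 * r l ≤ K l) → (∀ l, r₀ ≤ r l) → (∀ l l', (K l : ℝ) ≤ lam * r l') → (∀ l, N l < b ^ K l) →
      (∀ l j, f l j < b ∧ f l j ≠ digit b j (N l)) →
      (exceptions b K r N f (StrongAlternative g c₁ c₂) : ℝ) ≤ Real.exp (-(η * r 0)) * ∏ l, ((K l).choose (r l) : ℝ) :=
  Pool.Agent.NH22.DG.All.main b g lam hb hg hlam

end Pool.Agent.Results.MP_f5471b_nt.SparseFamilies
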